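import Pool.Agent.TameExp.Phi

set_option autoImplicit false

/-!
# Exponentials with kernel coefficients depending on a free variable are tame
-/

namespace Pool.Agent.Results.MP_215403_ag.KernelExponentials

open MvPolynomial Pool.Agent.TameExp

/-- An elementary automorphism of the affine space `A^s` over the complex numbers, given by its
action on the coordinate ring: for some index `i` it sends `X i` to `c * X i + f` with `c ≠ 0` and
`f` a polynomial in which `X i` does not occur, and it fixes all the other variables. -/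
def IsElementary {s : ℕ} (φ : MvPolynomial (Fin s) ℂ ≃ₐ[ℂ] MvPolynomial (Fin s) ℂ) : Prop :=
  ∃ (i : Fin s) (c : ℂ) (f : MvPolynomial (Fin s) ℂ), c ≠ 0 ∧ i ∉ f.vars ∧
    φ (X i) = C c * X i + f ∧ ∀ j, j ≠ i → φ (X j) = X j

/-- The tame subgroup: generated by the elementary automorphisms. -/
noncomputable def tame (s : ℕ) : Subgroup (MvPolynomial (Fin s) ℂ ≃ₐ[ℂ] MvPolynomial (Fin s) ℂ) :=
  Subgroup.closure {φ | IsElementary φ}

variable {s : ℕ}

/-- `X i ↦ X i + h`. -/
noncomputable def shiftHom (i : Fin s) (h : MvPolynomial (Fin s) ℂ) :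
    MvPolynomial (Fin s) ℂ →ₐ[ℂ] MvPolynomial (Fin s) ℂ :=
  aeval (fun j => if j = i then X i + h else X j)

theorem shiftHom_self (i : Fin s) (h : MvPolynomial (Fin s) ℂ) :
    shiftHom i h (X i) = X i + h := by
  simp [shiftHom]

theorem shiftHom_ne (i : Fin s) (h : MvPolynomial (Fin s) ℂ) {j : Fin s} (hj : j ≠ i) :
    shiftHom i h (X j) = X j := by
  simp [shiftHom, hj]

theorem shiftHom_free (i : Fin s) (h p : MvPolynomial (Fin s) ℂ) (hp : i ∉ p.vars) :
    shiftHom i h p = p := by
  have := hom_congr_vars (f₁ := (shiftHom i h : MvPolynomial (Fin s) ℂ →+* MvPolynomial (Fin s) ℂ))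
    (f₂ := RingHom.id _) (p₁ := p) (p₂ := p) (by ext; simp) ?_ rfl
  · simpa using this
  · intro j hj _
    have : j ≠ i := by rintro rfl; exact hp hj
    simpa using shiftHom_ne i h this

/-- `X i ↦ X i + h` as an automorphism, `X i` does not occur in `h`. -/
noncomputable def shift (i : Fin s) (h : MvPolynomial (Fin s) ℂ) (hi : i ∉ h.vars) :
    MvPolynomial (Fin s) ℂ ≃ₐ[ℂ] MvPolynomial (Fin s) ℂ :=
  AlgEquiv.ofAlgHom (shiftHom i h) (shiftHom i (-h))
    (by
      ext j
      by_cases hj : j = i
      · subst hj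
        simp [shiftHom_self, shiftHom_free _ h h hi]
      · simp [shiftHom_ne _ _ hj])
    (by
      ext j
      by_cases hj : j = i
      · subst hj
        simp [shiftHom_self, shiftHom_free _ (-h) h hi]
      · simp [shiftHom_ne _ _ hj])

theorem shift_apply (i : Fin s) (h : MvPolynomial (Fin s) ℂ) (hi : i ∉ h.vars)
    (p : MvPolynomial (Fin s) ℂ) : shift i h hi p = shiftHom i h p := rfl

theorem shift_mem (i : Fin s) (h : MvPolynomial (Fin s) ℂ) (hi : i ∉ h.vars) :
    shift i h hi ∈ tame s := by
  apply Subgroup.subset_closure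
  refine ⟨i, 1, h, one_ne_zero, hi, ?_, ?_⟩
  · rw [shift_apply, shiftHom_self, C_1, one_mul]
  · intro j hj
    rw [shift_apply, shiftHom_ne _ _ hj]

/-- Triangular automorphisms are tame. -/
theorem triangular_mem (w : Fin s) (r : Fin s → ℕ) : ∀ (n : ℕ) (g : Fin s → MvPolynomial (Fin s) ℂ),
    (Finset.univ.filter (fun i => g i ≠ 0)).card ≤ n → g w = 0 →
    (∀ i, i ≠ w → ∀ j ∈ (g i).vars, j = w ∨ r j < r i) →
    ∃ φ ∈ tame s, ∀ i, φ (X i) = X i + g i := by
  classical
  intro n
  induction n with
  | zero =>
    intro g hc _ _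
    have hg : ∀ i, g i = 0 := by
      intro i
      by_contra hi
      have : i ∈ Finset.univ.filter (fun i => g i ≠ 0) := by simp [hi]
      have := Finset.card_pos.2 ⟨i, this⟩
      omega
    exact ⟨1, (tame s).one_mem, fun i => by simp [hg i]⟩
  | succ n ih =>
    intro g hc hw hg
    by_cases hne : (Finset.univ.filter (fun i => g i ≠ 0)).Nonempty
    · obtain ⟨i0, hi0, hmax⟩ := Finset.exists_max_image _ r hne
      have hi0' : g i0 ≠ 0 := by simpa using hi0
      have hi0w : i0 ≠ w := by rintro rfl; exact hi0' hw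
      have hfree : ∀ i, g i ≠ 0 → i0 ∉ (g i).vars := by
        intro i hi hmem
        have hiw : i ≠ w := by rintro rfl; exact hi hw
        rcases hg i hiw i0 hmem with h | h
        · exact hi0w h
        · have := hmax i (by simpa using hi)
          omega
      set g' : Fin s → MvPolynomial (Fin s) ℂ := Function.update g i0 0 with hg'
      obtain ⟨φ, hφ, hφX⟩ := ih g' (by
          have hsub : (Finset.univ.filter (fun i => g' i ≠ 0)) ⊆
              (Finset.univ.filter (fun i => g i ≠ 0)).erase i0 := by
            intro i hi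
            rw [Finset.mem_filter] at hi
            by_cases h : i = i0
            · subst h
              simp [hg'] at hi
            · simp only [hg', Function.update_of_ne h] at hi
              simp [h, hi.2]
          have h1 := Finset.card_le_card hsub
          rw [Finset.card_erase_of_mem hi0] at h1
          omega)
        (by rw [hg', Function.update_of_ne (Ne.symm hi0w), hw])
        (by
          intro i hiw j hj
          by_cases h : i = i0
          · subst h
            simp [hg'] at hj
          · rw [hg', Function.update_of_ne h] at hj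
            exact hg i hiw j hj)
      refine ⟨shift i0 (g i0) (hfree i0 hi0') * φ,
        (tame s).mul_mem (shift_mem _ _ _) hφ, fun i => ?_⟩
      rw [AlgEquiv.mul_apply, hφX, map_add, shift_apply, shift_apply]
      by_cases h : i = i0
      · subst h
        simp [hg', shiftHom_self]
      · rw [shiftHom_ne _ _ h, hg', Function.update_of_ne h]
        by_cases h0 : g i = 0
        · rw [h0, map_zero]
        · rw [shiftHom_free _ _ _ (hfree i h0)]
    · have hg0 : ∀ i, g i = 0 := by
        intro i
        by_contra hi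
        exact hne ⟨i, by simp [hi]⟩
      exact ⟨1, (tame s).one_mem, fun i => by simp [hg0 i]⟩

section

variable (D : Derivation ℂ (MvPolynomial (Fin s) ℂ) (MvPolynomial (Fin s) ℂ)) (w : Fin s)
  (r : Fin s → ℕ)

/-- `D` is triangular and does not involve the variable `X w`. -/
def Tri : Prop := D (X w) = 0 ∧ ∀ i, i ≠ w → ∀ j ∈ (D (X i)).vars, j ≠ w ∧ r j < r i

variable {D w r}

theorem lnil_of_tri (h : Tri D w r) : LNil D := by
  have key : ∀ (n : ℕ) (i : Fin s), r i < n → X i ∈ nilAlg D := by
    intro n
    induction n with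
    | zero => intro i hi; omega
    | succ n ih =>
      intro i hi
      by_cases hiw : i = w
      · subst hiw
        exact ⟨1, by simpa using h.1⟩
      · have h1 : D (X i) ∈ supported ℂ {j : Fin s | r j < r i} := by
          rw [mem_supported]
          intro j hj
          exact (h.2 i hiw j (by simpa using hj)).2
        have h2 : supported ℂ {j : Fin s | r j < r i} ≤ nilAlg D := by
          rw [supported_eq_adjoin_X, Algebra.adjoin_le_iff]
          rintro _ ⟨j, hj, rfl⟩
          exact ih j (lt_of_lt_of_le hj (by omega))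
        obtain ⟨N, hN⟩ := h2 h1
        exact ⟨N + 1, by rw [Function.iterate_succ_apply]; exact hN⟩
  have htop : nilAlg D = ⊤ := by
    rw [← top_le_iff, ← adjoin_range_X, Algebra.adjoin_le_iff]
    rintro _ ⟨i, rfl⟩
    exact key (r i + 1) i (Nat.lt_succ_self _)
  intro p
  have : p ∈ nilAlg D := htop ▸ Algebra.mem_top
  exact this

/-- The exponential of `f • D` is tame. -/
def Texp (hD : LNil D) (f : MvPolynomial (Fin s) ℂ) : Prop :=
  ∃ φ ∈ tame s, ∀ p, φ p = expHom D hD f p

theorem texp_zero (hD : LNil D) : Texp hD 0 :=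
  ⟨1, (tame s).one_mem, fun p => by rw [expHom_zero]; rfl⟩

theorem texp_add (hD : LNil D) {f g : MvPolynomial (Fin s) ℂ} (hf : D f = 0)
    (h1 : Texp hD f) (h2 : Texp hD g) : Texp hD (f + g) := by
  obtain ⟨φ, hφ, hφ'⟩ := h1
  obtain ⟨ψ, hψ, hψ'⟩ := h2
  refine ⟨ψ * φ, (tame s).mul_mem hψ hφ, fun p => ?_⟩
  rw [AlgEquiv.mul_apply, hφ', hψ', expHom_comp D hD f g hf]

theorem texp_of_vars (h : Tri D w r) (hD : LNil D) {f : MvPolynomial (Fin s) ℂ}
    (hf : f ∈ supported ℂ {w}) : Texp hD f := by
  have hg : ∀ i, i ≠ w → ∀ j ∈ (expHom D hD f (X i) - X i).vars, j = w ∨ r j < r i := by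
    intro i hiw j hj
    set S := supported ℂ {j : Fin s | j = w ∨ r j < r i} with hS
    have hfS : f ∈ S := supported_mono (by intro j hj; left; simpa using hj) hf
    have hDS : ∀ p ∈ S, D p ∈ S := by
      intro p hp
      rw [hS, supported_eq_adjoin_X] at hp
      induction hp using Algebra.adjoin_induction with
      | mem x hx =>
        obtain ⟨k, hk, rfl⟩ := hx
        by_cases hkw : k = w
        · rw [hkw, h.1]; exact S.zero_mem
        · have hk' : r k < r i := by
            rcases hk with hk | hk
            · exact absurd hk hkw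
            · exact hk
          rw [hS, mem_supported]
          intro l hl
          right
          exact lt_trans (h.2 k hkw l (by simpa using hl)).2 hk'
      | algebraMap c => simp
      | add x y _ _ hx hy => rw [map_add]; exact S.add_mem hx hy
      | mul x y hx' hy' hx hy =>
        rw [Derivation.leibniz, smul_eq_mul, smul_eq_mul]
        exact S.add_mem (S.mul_mem hx' hy) (S.mul_mem hy' hx)
    have hDi : D (X i) ∈ S := by
      rw [hS, mem_supported]
      intro l hl
      right
      exact (h.2 i hiw l (by simpa using hl)).2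
    have hit : ∀ k, (⇑D)^[k] (D (X i)) ∈ S := by
      intro k
      induction k with
      | zero => exact hDi
      | succ k ih => rw [Function.iterate_succ_apply']; exact hDS _ ih
    have hmem : expHom D hD f (X i) - X i ∈ S := by
      rw [expHom_apply, Polynomial.eval_eq_sum_range, Finset.sum_range_succ', Phi_coeff]
      simp only [Nat.factorial_zero, Nat.cast_one, inv_one, Function.iterate_zero, id_eq, one_smul,
        pow_zero, mul_one, add_sub_cancel_right]
      refine S.sum_mem fun k _ => S.mul_mem ?_ (S.pow_mem hfS _)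
      rw [Phi_coeff, Function.iterate_succ_apply]
      exact S.smul_mem (hit k) _
    rw [hS, mem_supported] at hmem
    exact hmem (by simpa using hj)
  obtain ⟨φ, hφ, hφ'⟩ := triangular_mem w r _ (fun i => expHom D hD f (X i) - X i) le_rfl
    (by simp [expHom_const D hD f h.1]) hg
  refine ⟨φ, hφ, fun p => ?_⟩
  have : (φ : MvPolynomial (Fin s) ℂ →ₐ[ℂ] MvPolynomial (Fin s) ℂ) = expHom D hD f := by
    apply MvPolynomial.algHom_ext
    intro i
    have := hφ' i
    simpa using this
  exact DFunLike.congr_fun this p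

theorem shift_comm (h : Tri D w r) (q : MvPolynomial (Fin s) ℂ) (hq : w ∉ q.vars)
    (hDq : D q = 0) (p : MvPolynomial (Fin s) ℂ) :
    shift w q hq (D p) = D (shift w q hq p) := by
  have hX : ∀ i, shift w q hq (D (X i)) = D (shift w q hq (X i)) := by
    intro i
    rw [shift_apply, shift_apply]
    by_cases hiw : i = w
    · subst hiw
      rw [h.1, shiftHom_self, map_add, h.1, hDq, map_zero, add_zero]
    · rw [shiftHom_ne _ _ hiw, shiftHom_free]
      intro hw
      exact (h.2 i hiw w hw).1 rfl
  induction p using MvPolynomial.induction_on with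
  | C a =>
    have h1 : (C a : MvPolynomial (Fin s) ℂ) = algebraMap ℂ _ a := rfl
    rw [h1, Derivation.map_algebraMap, AlgEquiv.commutes, Derivation.map_algebraMap, map_zero]
  | add p q hp hq => simp only [map_add, hp, hq]
  | mul_X p i hp =>
    rw [Derivation.leibniz, map_mul, Derivation.leibniz, smul_eq_mul, smul_eq_mul, smul_eq_mul,
      smul_eq_mul, map_add, map_mul, map_mul, hp, hX]

theorem texp_shift (h : Tri D w r) (hD : LNil D) (q : MvPolynomial (Fin s) ℂ) (hq : w ∉ q.vars)
    (hDq : D q = 0) {f : MvPolynomial (Fin s) ℂ} (hf : Texp hD f) :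
    Texp hD (shift w q hq f) := by
  obtain ⟨φ, hφ, hφ'⟩ := hf
  refine ⟨shift w q hq * φ * (shift w q hq)⁻¹,
    (tame s).mul_mem ((tame s).mul_mem (shift_mem _ _ _) hφ) ((tame s).inv_mem (shift_mem _ _ _)),
    fun p => ?_⟩
  rw [AlgEquiv.mul_apply, AlgEquiv.mul_apply, hφ',
    expHom_conj D hD (shift w q hq) (shift_comm h q hq hDq)]
  congr 1
  exact AlgEquiv.apply_symm_apply _ _

/-- The set of kernel elements all of whose multiples have tame exponentials. -/
def Good (hD : LNil D) (f : MvPolynomial (Fin s) ℂ) : Prop := D f = 0 ∧ ∀ c : ℂ, Texp hD (c • f)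

theorem good_add (hD : LNil D) {f g : MvPolynomial (Fin s) ℂ} (hf : Good hD f) (hg : Good hD g) :
    Good hD (f + g) :=
  ⟨by rw [map_add, hf.1, hg.1, add_zero], fun c => by
    rw [smul_add]
    exact texp_add hD (by rw [Derivation.map_smul, hf.1, smul_zero]) (hf.2 c) (hg.2 c)⟩

theorem good_smul (hD : LNil D) {f : MvPolynomial (Fin s) ℂ} (hf : Good hD f) (c : ℂ) :
    Good hD (c • f) :=
  ⟨by rw [Derivation.map_smul, hf.1, smul_zero], fun d => by rw [smul_smul]; exact hf.2 _⟩

theorem good_zero (hD : LNil D) : Good hD 0 :=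
  ⟨map_zero _, fun c => by rw [smul_zero]; exact texp_zero hD⟩

theorem good_sum (hD : LNil D) {ι : Type} (t : Finset ι) (f : ι → MvPolynomial (Fin s) ℂ)
    (hf : ∀ i ∈ t, Good hD (f i)) : Good hD (∑ i ∈ t, f i) := by
  classical
  induction t using Finset.induction_on with
  | empty => simpa using good_zero hD
  | insert a t ha ih =>
    rw [Finset.sum_insert ha]
    exact good_add hD (hf a (Finset.mem_insert_self _ _))
      (ih fun i hi => hf i (Finset.mem_insert_of_mem hi))

theorem good_monomial (h : Tri D w r) (hD : LNil D) : ∀ (j : ℕ) (q : MvPolynomial (Fin s) ℂ),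
    w ∉ q.vars → D q = 0 → Good hD (X w ^ j * q) := by
  intro j
  induction j using Nat.strong_induction_on with
  | _ j ih =>
    intro q hq hDq
    have hDX : ∀ m, D (X w ^ m) = 0 := fun m => by
      rw [Derivation.leibniz_pow, h.1, smul_zero, smul_zero]
    have hDqm : ∀ m, D (q ^ m) = 0 := fun m => by
      rw [Derivation.leibniz_pow, hDq, smul_zero, smul_zero]
    have hqm : ∀ m, w ∉ (q ^ m).vars := fun m hm => hq (vars_pow q m hm)
    have hXw : ∀ m, Good hD (X w ^ m) := fun m => ⟨hDX m, fun c => texp_of_vars h hD (by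
      refine (supported ℂ {w}).smul_mem ((supported ℂ {w}).pow_mem ?_ _) _
      rw [mem_supported]
      simp)⟩
    have h1 : Good hD ((X w + q) ^ (j + 1)) := by
      refine ⟨by rw [Derivation.leibniz_pow, map_add, h.1, hDq, add_zero, smul_zero, smul_zero],
        fun c => ?_⟩
      have := texp_shift h hD q hq hDq ((hXw (j + 1)).2 c)
      rwa [map_smul, map_pow, shift_apply, shiftHom_self] at this
    have h2 : X w ^ j * q = (((j : ℂ) + 1)⁻¹) • ((X w + q) ^ (j + 1) +
        (-1 : ℂ) • (∑ m ∈ Finset.range j, ((j + 1).choose m : ℂ) • (X w ^ m * q ^ (j + 1 - m)) +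
          X w ^ (j + 1))) := by
      rw [add_pow, Finset.sum_range_succ, Finset.sum_range_succ]
      have h3 : ∀ m, X w ^ m * q ^ (j + 1 - m) * (((j + 1).choose m : ℕ) : MvPolynomial (Fin s) ℂ)
          = ((j + 1).choose m : ℂ) • (X w ^ m * q ^ (j + 1 - m)) := by
        intro m
        rw [Nat.cast_smul_eq_nsmul, nsmul_eq_mul, mul_comm]
      simp only [h3]
      rw [Nat.choose_succ_self_right, Nat.choose_self, Nat.sub_self, pow_zero, mul_one,
        show j + 1 - j = 1 by omega, pow_one]
      have h4 : ((j : ℂ) + 1) ≠ 0 := by exact_mod_cast Nat.succ_ne_zero j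
      simp only [Nat.cast_add, Nat.cast_one, one_smul, neg_smul]
      rw [show ∀ a b c : MvPolynomial (Fin s) ℂ, a + b + c + -(a + c) = b by intro a b c; ring,
        smul_smul, inv_mul_cancel₀ h4, one_smul]
    rw [h2]
    refine good_smul hD (good_add hD h1 (good_smul hD (good_add hD (good_sum hD _ _ ?_)
      (hXw (j + 1))) _)) _
    intro m hm
    exact good_smul hD (ih m (Finset.mem_range.1 hm) _ (hqm _) (hDqm _)) _

end

/-- Expansion in powers of `X w`. -/
noncomputable def psi (w : Fin s) :
    MvPolynomial (Fin s) ℂ →ₐ[ℂ] Polynomial (MvPolynomial (Fin s) ℂ) :=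
  aeval (fun i => if i = w then Polynomial.X else Polynomial.C (X i))

theorem psi_self (w : Fin s) : psi w (X w) = Polynomial.X := by simp [psi]

theorem psi_ne {w i : Fin s} (h : i ≠ w) : psi w (X i) = Polynomial.C (X i) := by
  simp [psi, h]

theorem psi_C (w : Fin s) (a : ℂ) : psi w (C a) = Polynomial.C (C a) := by
  simp [psi]

theorem psi_free {w : Fin s} {p : MvPolynomial (Fin s) ℂ} (hp : w ∉ p.vars) :
    psi w p = Polynomial.C p := by
  have := hom_congr_vars
    (f₁ := (psi w : MvPolynomial (Fin s) ℂ →+* Polynomial (MvPolynomial (Fin s) ℂ)))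
    (f₂ := Polynomial.C) (p₁ := p) (p₂ := p) (by ext a; simp) ?_ rfl
  · simpa using this
  · intro j hj _
    have : j ≠ w := by rintro rfl; exact hp hj
    simpa using psi_ne this

theorem psi_eval (w : Fin s) (p : MvPolynomial (Fin s) ℂ) : (psi w p).eval (X w) = p := by
  induction p using MvPolynomial.induction_on with
  | C a => rw [psi_C, Polynomial.eval_C]
  | add p q hp hq => rw [map_add, Polynomial.eval_add, hp, hq]
  | mul_X p i hp =>
    rw [map_mul, Polynomial.eval_mul, hp]
    by_cases hi : i = w
    · subst hi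
      rw [psi_self, Polynomial.eval_X]
    · rw [psi_ne hi, Polynomial.eval_C]

theorem psi_coeff_free (w : Fin s) (p : MvPolynomial (Fin s) ℂ) :
    ∀ k, (psi w p).coeff k ∈ supported ℂ ({w}ᶜ : Set (Fin s)) := by
  induction p using MvPolynomial.induction_on with
  | C a =>
    intro k
    rw [psi_C, Polynomial.coeff_C]
    split_ifs
    · exact Subalgebra.algebraMap_mem _ a
    · exact Subalgebra.zero_mem _
  | add p q hp hq =>
    intro k
    rw [map_add, Polynomial.coeff_add]
    exact Subalgebra.add_mem _ (hp k) (hq k)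
  | mul_X p i hp =>
    intro k
    rw [map_mul]
    by_cases hi : i = w
    · subst hi
      rw [psi_self]
      rcases k with _ | k
      · rw [Polynomial.mul_coeff_zero, Polynomial.coeff_X_zero, mul_zero]
        exact Subalgebra.zero_mem _
      · rw [Polynomial.coeff_mul_X]
        exact hp k
    · rw [psi_ne hi, Polynomial.coeff_mul_C]
      refine Subalgebra.mul_mem _ (hp k) ?_
      rw [mem_supported]
      simpa using Ne.symm hi

theorem psi_D {D : Derivation ℂ (MvPolynomial (Fin s) ℂ) (MvPolynomial (Fin s) ℂ)} {w : Fin s}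
    {r : Fin s → ℕ} (h : Tri D w r) (p : MvPolynomial (Fin s) ℂ) :
    ∀ k, (psi w (D p)).coeff k = D ((psi w p).coeff k) := by
  induction p using MvPolynomial.induction_on with
  | C a =>
    intro k
    have h1 : (C a : MvPolynomial (Fin s) ℂ) = algebraMap ℂ _ a := rfl
    rw [psi_C, Polynomial.coeff_C, h1, Derivation.map_algebraMap, map_zero, Polynomial.coeff_zero]
    split_ifs
    · rw [Derivation.map_algebraMap]
    · rw [map_zero]
  | add p q hp hq =>
    intro k
    rw [map_add, map_add, Polynomial.coeff_add, map_add, Polynomial.coeff_add, map_add, hp, hq]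
  | mul_X p i hp =>
    intro k
    rw [Derivation.leibniz, smul_eq_mul, smul_eq_mul, map_add, map_mul, map_mul, map_mul,
      Polynomial.coeff_add]
    by_cases hi : i = w
    · subst hi
      rw [h.1, map_zero, mul_zero, Polynomial.coeff_zero, zero_add, psi_self]
      rcases k with _ | k
      · rw [Polynomial.mul_coeff_zero, Polynomial.coeff_X_zero, zero_mul, Polynomial.mul_coeff_zero,
          Polynomial.coeff_X_zero, mul_zero, map_zero]
      · rw [Polynomial.coeff_mul_X, mul_comm, Polynomial.coeff_mul_X, hp]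
    · have hfree : w ∉ (D (X i)).vars := fun hw => (h.2 i hi w hw).1 rfl
      rw [psi_ne hi, psi_free hfree, Polynomial.coeff_mul_C, Polynomial.coeff_C_mul,
        Polynomial.coeff_mul_C, hp, Derivation.leibniz, smul_eq_mul, smul_eq_mul]

/-- Let `D` be a derivation of `ℂ[X_0,…,X_{s-1}]` with `D (X w) = 0` which is triangular in the
remaining variables, with coefficients not involving `X w`, and let `f` be any polynomial with
`D f = 0` (`f` may involve `X w`). Then `f • D` is locally nilpotent and its exponential
is a tame automorphism. -/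
theorem result (s : ℕ) (D : Derivation ℂ (MvPolynomial (Fin s) ℂ) (MvPolynomial (Fin s) ℂ))
    (w : Fin s) (r : Fin s → ℕ) (f : MvPolynomial (Fin s) ℂ) (hw : D (X w) = 0)
    (hD : ∀ i, i ≠ w → ∀ j ∈ (D (X i)).vars, j ≠ w ∧ r j < r i) (hf : D f = 0) :
    (∀ p : MvPolynomial (Fin s) ℂ, ∃ N : ℕ, (⇑(f • D))^[N] p = 0) ∧
    ∃ φ ∈ tame s, ∀ (p : MvPolynomial (Fin s) ℂ) (N : ℕ), (⇑(f • D))^[N] p = 0 →
      φ p = ∑ k ∈ Finset.range N, ((k.factorial : ℂ)⁻¹) • (⇑(f • D))^[k] p := by
  have h : Tri D w r := ⟨hw, hD⟩
  have hL : LNil D := lnil_of_tri h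
  refine ⟨lnil_smul D hL f hf, ?_⟩
  have hgood : Good hL f := by
    have h1 : f = ∑ k ∈ Finset.range ((psi w f).natDegree + 1), X w ^ k * (psi w f).coeff k := by
      conv_lhs => rw [← psi_eval w f]
      rw [Polynomial.eval_eq_sum_range]
      exact Finset.sum_congr rfl fun k _ => mul_comm _ _
    rw [h1]
    refine good_sum hL _ _ fun k _ => good_monomial h hL k _ ?_ ?_
    · have := psi_coeff_free w f k
      rw [mem_supported] at this
      intro hw'
      exact this (by simpa using hw') rfl
    · rw [← psi_D h, hf, map_zero, Polynomial.coeff_zero]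
  obtain ⟨φ, hφ, hφ'⟩ := hgood.2 1
  rw [one_smul] at hφ'
  exact ⟨φ, hφ, fun p N hN => by rw [hφ', expHom_eq_sum D hL f hf p N hN]⟩

end Pool.Agent.Results.MP_215403_ag.KernelExponentials
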